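import Mathlib

set_option autoImplicit false

/-!
# Fisher's scaling relation: one half. Definitions and counting
-/

namespace Pool.Agent.K1H72.Fi

open Filter Topology

/-- squared Euclidean norm -/
def nsq {d : ℕ} (z : Fin d → ℤ) : ℝ := ∑ i, (z i : ℝ) ^ 2

/-- Euclidean norm -/
noncomputable def nrm {d : ℕ} (z : Fin d → ℤ) : ℝ := Real.sqrt (nsq z)

/-- the `n`-step self-avoiding walks on `ℤ ^ d` which start at `0` -/
def Gam (d n : ℕ) : Set (Fin (n + 1) → Fin d → ℤ) :=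
  {w | w 0 = 0 ∧ Function.Injective w ∧ ∀ i : Fin n, ∑ j, |w i.succ j - w i.castSucc j| = 1}

/-- the number of `n`-step self-avoiding walks -/
noncomputable def C (d n : ℕ) : ℕ := (Gam d n).ncard

/-- the number of those which end at `z` -/
noncomputable def Cz (d n : ℕ) (z : Fin d → ℤ) : ℕ := {w ∈ Gam d n | w (Fin.last n) = z}.ncard

/-- the connective constant -/
noncomputable def mu (d : ℕ) : ℝ := ⨅ n : {n : ℕ // 1 ≤ n}, ((C d n.1 : ℝ) ^ ((1 : ℝ) / (n.1 : ℝ)))

/-- the two-point function -/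
noncomputable def G (d : ℕ) (z : Fin d → ℤ) : ℝ := ∑' n : ℕ, (Cz d n z : ℝ) / mu d ^ n

/-- the mean square displacement -/
noncomputable def msd (d n : ℕ) : ℝ := (∑ᶠ w ∈ Gam d n, nsq (w (Fin.last n))) / C d n

theorem nsq_nonneg {d : ℕ} (z : Fin d → ℤ) : 0 ≤ nsq z := Finset.sum_nonneg fun _ _ => sq_nonneg _

theorem bound {d n : ℕ} {w : Fin (n + 1) → Fin d → ℤ} (hw : w ∈ Gam d n) :
    ∀ (k : ℕ) (hk : k < n + 1) (j : Fin d), |w ⟨k, hk⟩ j| ≤ k := by
  intro k
  induction k with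
  | zero =>
    intro hk j
    have h : w ⟨0, hk⟩ = 0 := hw.1
    rw [h]
    simp
  | succ k ih =>
    intro hk j
    have h1 := ih (by omega) j
    have h2 := hw.2.2 ⟨k, by omega⟩
    have h3 : |w (Fin.succ ⟨k, by omega⟩) j - w (Fin.castSucc ⟨k, by omega⟩) j| ≤ 1 := by
      rw [← h2]
      exact Finset.single_le_sum (f := fun j => |w (Fin.succ ⟨k, by omega⟩) j -
        w (Fin.castSucc ⟨k, by omega⟩) j|) (fun _ _ => abs_nonneg _) (Finset.mem_univ j)
    have h4 : w (Fin.succ (⟨k, by omega⟩ : Fin n)) = w ⟨k + 1, hk⟩ := rfl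
    have h5 : w (Fin.castSucc (⟨k, by omega⟩ : Fin n)) = w ⟨k, by omega⟩ := rfl
    rw [h4, h5] at h3
    have h6 : |w ⟨k + 1, hk⟩ j| ≤ |w ⟨k + 1, hk⟩ j - w ⟨k, by omega⟩ j| + |w ⟨k, by omega⟩ j| := by
      have := abs_add_le (w ⟨k + 1, hk⟩ j - w ⟨k, by omega⟩ j) (w ⟨k, by omega⟩ j)
      simpa using this
    push_cast
    linarith

theorem Gam_finite (d n : ℕ) : (Gam d n).Finite := by
  refine (Set.finite_Icc (fun _ _ => -(n : ℤ) : Fin (n + 1) → Fin d → ℤ)
    (fun _ _ => (n : ℤ))).subset ?_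
  intro w hw
  constructor
  · intro i j
    have h := bound hw i.1 i.2 j
    have h1 : (i.1 : ℤ) ≤ n := by exact_mod_cast Nat.lt_succ_iff.1 i.2
    have h2 := (abs_le.1 h).1
    show -(n : ℤ) ≤ w i j
    linarith
  · intro i j
    have h := bound hw i.1 i.2 j
    have h1 : (i.1 : ℤ) ≤ n := by exact_mod_cast Nat.lt_succ_iff.1 i.2
    have h2 := (abs_le.1 h).2
    show w i j ≤ (n : ℤ)
    linarith

/-- the walks as a finite set -/
noncomputable def W (d n : ℕ) : Finset (Fin (n + 1) → Fin d → ℤ) := (Gam_finite d n).toFinset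

theorem C_eq (d n : ℕ) : C d n = (W d n).card := Set.ncard_eq_toFinset_card _ _

open Classical in
theorem Cz_eq (d n : ℕ) (z : Fin d → ℤ) :
    Cz d n z = ((W d n).filter fun w => w (Fin.last n) = z).card := by
  unfold Cz
  have h : {w ∈ Gam d n | w (Fin.last n) = z} =
      (((W d n).filter fun w => w (Fin.last n) = z : Finset _) : Set _) := by
    ext w
    simp [W]
  rw [h, Set.ncard_coe_finset]

theorem msd_eq (d n : ℕ) : msd d n = (∑ w ∈ W d n, nsq (w (Fin.last n))) / C d n := by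
  unfold msd W
  rw [finsum_mem_eq_finite_toFinset_sum _ (Gam_finite d n)]

theorem C_pos {d : ℕ} (hd : 1 ≤ d) (n : ℕ) : 0 < C d n := by
  rw [C_eq, Finset.card_pos]
  set j0 : Fin d := ⟨0, hd⟩ with hj0
  refine ⟨fun i => Pi.single j0 ((i : ℕ) : ℤ), ?_⟩
  unfold W
  rw [Set.Finite.mem_toFinset]
  refine ⟨?_, ?_, ?_⟩
  · simp
  · intro a b hab
    have h := congrFun hab j0
    simp only [Pi.single_eq_same] at h
    exact Fin.ext (by exact_mod_cast h)
  · intro i
    rw [Finset.sum_eq_single j0]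
    · simp
    · intro j _ hj
      simp [Pi.single_eq_of_ne hj]
    · intro h
      exact absurd (Finset.mem_univ _) h

theorem mu_one_le {d : ℕ} (hd : 1 ≤ d) : 1 ≤ mu d := by
  have : Nonempty {n : ℕ // 1 ≤ n} := ⟨⟨1, le_refl 1⟩⟩
  refine le_ciInf fun n => ?_
  exact Real.one_le_rpow (by exact_mod_cast C_pos hd n.1) (by positivity)

theorem mu_pow_le {d : ℕ} (hd : 1 ≤ d) (n : ℕ) : mu d ^ n ≤ C d n := by
  rcases Nat.eq_zero_or_pos n with rfl | hn
  · have := C_pos hd 0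
    simp only [pow_zero]
    exact_mod_cast this
  · have h1 : mu d ≤ (C d n : ℝ) ^ ((1 : ℝ) / (n : ℝ)) := by
      refine ciInf_le ⟨0, ?_⟩ (⟨n, hn⟩ : {n : ℕ // 1 ≤ n})
      rintro _ ⟨m, rfl⟩
      positivity
    have h2 : (0 : ℝ) ≤ mu d := by linarith [mu_one_le hd]
    calc mu d ^ n ≤ ((C d n : ℝ) ^ ((1 : ℝ) / (n : ℝ))) ^ n := pow_le_pow_left₀ h2 h1 n
      _ = C d n := by
        rw [← Real.rpow_natCast, ← Real.rpow_mul (by positivity), one_div,
          inv_mul_cancel₀ (by positivity), Real.rpow_one]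

end Pool.Agent.K1H72.Fi
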