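import Pool.Agent.K1H72.Fi.Main

set_option autoImplicit false

/-!
# Fisher's scaling relation: one half. End of the proof
-/

namespace Pool.Agent.K1H72.Fi

open Filter Topology

theorem A_ge {d : ℕ} (hd : 1 ≤ d) (n : ℕ) : 1 ≤ (C d n : ℝ) / mu d ^ n := by
  have h1 := mu_one_le hd
  rw [one_le_div (pow_pos (by linarith) n)]
  exact mu_pow_le hd n

theorem gamma_ge {d : ℕ} (hd : 1 ≤ d) {γ : ℝ} (h : HasGamma d γ) : 1 ≤ γ := by
  have h1 : 0 ≤ γ - 1 := ge_of_tendsto' h fun n =>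
    div_nonneg (Real.log_nonneg (A_ge hd n)) (Real.log_natCast_nonneg n)
  linarith

theorem nsq_ge {d : ℕ} {z : Fin d → ℤ} (h : z ≠ 0) : 1 ≤ nsq z := by
  obtain ⟨i, hi⟩ := Function.ne_iff.1 h
  have h1 : (1 : ℝ) ≤ (z i : ℝ) ^ 2 := by
    have h2 : (1 : ℤ) ≤ (z i) ^ 2 := by
      have hi' : z i ≠ 0 := hi
      have : 0 < (z i) ^ 2 := by positivity
      linarith
    exact_mod_cast h2
  exact h1.trans (Finset.single_le_sum (f := fun i => (z i : ℝ) ^ 2) (fun _ _ => sq_nonneg _)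
    (Finset.mem_univ i))

theorem msd_ge {d : ℕ} (hd : 1 ≤ d) {n : ℕ} (hn : 1 ≤ n) : 1 ≤ msd d n := by
  have hC : (0 : ℝ) < C d n := by exact_mod_cast C_pos hd n
  rw [msd_eq, one_le_div hC, C_eq, Finset.card_eq_sum_ones]
  push_cast
  refine Finset.sum_le_sum fun w hw => nsq_ge fun h => ?_
  have hw' : w ∈ Gam d n := by
    unfold W at hw
    exact (Set.Finite.mem_toFinset _).1 hw
  have h1 : w (Fin.last n) = w 0 := by rw [h, hw'.1]
  have h2 := hw'.2.1 h1
  have h3 := congrArg Fin.val h2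
  simp at h3
  omega

theorem nu_ge {d : ℕ} (hd : 1 ≤ d) {ν : ℝ} (h : HasNu d ν) : 0 ≤ ν := by
  have h1 : 0 ≤ 2 * ν := ge_of_tendsto h (eventually_atTop.2 ⟨1, fun n hn =>
    div_nonneg (Real.log_nonneg (msd_ge hd hn)) (Real.log_natCast_nonneg n)⟩)
  linarith

theorem key {d : ℕ} (hd : 1 ≤ d) {γ ν η : ℝ} (hγ : HasGamma d γ) (hν : HasNu d ν)
    (hη : HasEta d η) (ε : ℝ) (hε : 0 < ε) :
    γ - ε ≤ (ν + ε / 2) * max (2 - η + 2 * ε) 0 := by
  have hγ1 := gamma_ge hd hγ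
  have hν0 := nu_ge hd hν
  have hmu : 0 < mu d := by linarith [mu_one_le hd]
  have hγ' : Tendsto (fun n : ℕ => Real.log (C d n / mu d ^ n) / Real.log n) atTop
    (𝓝 (γ - 1)) := hγ
  have hν' : Tendsto (fun n : ℕ => Real.log (msd d n) / Real.log n) atTop (𝓝 (2 * ν)) := hν
  -- lower bound for the number of walks
  have hA : ∀ᶠ n : ℕ in atTop, (n : ℝ) ^ (γ - 1 - ε) ≤ (C d n : ℝ) / mu d ^ n := by
    filter_upwards [hγ'.eventually_const_le (show γ - 1 - ε < γ - 1 by linarith),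
      eventually_ge_atTop 2] with n h1 h2
    have hn : (1 : ℝ) < n := by exact_mod_cast h2
    have hl := Real.log_pos hn
    rw [le_div_iff₀ hl] at h1
    rw [← Real.log_le_log_iff (by positivity) (by linarith [A_ge hd n]), Real.log_rpow (by linarith)]
    exact h1
  have hM : ∀ᶠ n : ℕ in atTop, msd d n ≤ (n : ℝ) ^ (2 * ν + ε) := by
    filter_upwards [hν'.eventually_le_const (show 2 * ν < 2 * ν + ε by linarith),
      eventually_ge_atTop 2] with n h1 h2
    have hn : (1 : ℝ) < n := by exact_mod_cast h2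
    have hl := Real.log_pos hn
    rw [div_le_iff₀ hl] at h1
    rw [← Real.log_le_log_iff (by linarith [msd_ge hd (show 1 ≤ n by omega)]) (by positivity),
      Real.log_rpow (by linarith)]
    exact h1
  -- the two-point function
  set s : ℝ := -((d : ℝ) - 2 + η) + ε with hs
  have hfin : {z : Fin d → ℤ | ¬ (2 ≤ nrm z ∧ G d z ≤ nrm z ^ s)}.Finite := by
    have h1 : ∀ᶠ z : Fin d → ℤ in cofinite, 2 ≤ nrm z := by
      rw [Filter.eventually_cofinite]
      refine (Box d 2).finite_toSet.subset fun z hz => ?_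
      exact Finset.mem_coe.2 (mem_Box (not_le.1 hz).le)
    have h2 : ∀ᶠ z : Fin d → ℤ in cofinite, 2 ≤ nrm z ∧ G d z ≤ nrm z ^ s := by
      filter_upwards [h1, hη.2.eventually_le_const (show -((d : ℝ) - 2 + η) < s by
        rw [hs]; linarith)] with z h3 h4
      refine ⟨h3, ?_⟩
      have hl : 0 < Real.log (nrm z) := Real.log_pos (by linarith)
      rw [div_le_iff₀ hl] at h4
      have hp : 0 < nrm z ^ s := Real.rpow_pos_of_pos (by linarith) _
      rcases le_or_gt (G d z) 0 with h5 | h5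
      · linarith
      · rw [← Real.log_le_log_iff h5 hp, Real.log_rpow (by linarith)]
        exact h4
    exact Filter.eventually_cofinite.1 h2
  set E : Finset (Fin d → ℤ) := hfin.toFinset with hE
  have hEout : ∀ z, z ∉ E → 2 ≤ nrm z ∧ G d z ≤ nrm z ^ s := by
    intro z hz
    by_contra hcon
    exact hz (hE ▸ (Set.Finite.mem_toFinset hfin).2 hcon)
  have hsmall : ∀ᶠ n : ℕ in atTop, ∑ z ∈ E, (Cz d n z : ℝ) ≤ C d n / 4 := by
    have h1 : Tendsto (fun n : ℕ => ∑ z ∈ E, (Cz d n z : ℝ) / mu d ^ n) atTop (𝓝 0) := by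
      have h2 := tendsto_finsetSum E (fun z _ => (hη.1 z).tendsto_atTop_zero)
      simpa using h2
    filter_upwards [h1.eventually_le_const (show (0 : ℝ) < 1 / 4 by norm_num)] with n h2
    rw [← Finset.sum_div, div_le_iff₀ (pow_pos hmu n)] at h2
    have h3 := mu_pow_le hd n
    linarith
  obtain ⟨n0, hn0⟩ := eventually_atTop.1 (hA.and (hM.and hsmall))
  obtain ⟨K, hK, hsum⟩ := sum_pow d ε hε
  set t : ℝ := max (2 - η + 2 * ε) 0 with ht
  have ht' : max (s + d + ε) 0 = t := by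
    rw [ht, hs]
    congr 1
    ring
  have hνε : 0 ≤ ν + ε / 2 := by linarith
  -- the main inequality
  have hmain : ∀ N : ℕ, n0 ≤ N → 1 ≤ N →
      (N : ℝ) * ((N : ℝ) ^ (γ - 1) * (2 * N : ℝ) ^ (-ε) / 2) ≤
        K * (2 * (2 * N : ℝ) ^ (ν + ε / 2)) ^ t := by
    intro N hN hN1
    have hNr : (1 : ℝ) ≤ N := by exact_mod_cast hN1
    have h2N : (1 : ℝ) ≤ 2 * N := by linarith
    set R : ℝ := 2 * (2 * N : ℝ) ^ (ν + ε / 2) with hR
    have hpw : 1 ≤ (2 * N : ℝ) ^ (ν + ε / 2) := Real.one_le_rpow h2N hνε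
    have hR1 : 1 ≤ R := by rw [hR]; linarith
    classical
    set Z := (Box d R).filter fun z => z ∉ E ∧ nrm z ≤ R with hZ
    have hterm : ∀ n ∈ Finset.Ioc N (2 * N),
        (N : ℝ) ^ (γ - 1) * (2 * N : ℝ) ^ (-ε) / 2 ≤ ∑ z ∈ Z, (Cz d n z : ℝ) / mu d ^ n := by
      intro n hn
      obtain ⟨hn1, hn2⟩ := Finset.mem_Ioc.1 hn
      have hnr : (N : ℝ) ≤ n := by exact_mod_cast hn1.le
      have hnr2 : (n : ℝ) ≤ 2 * N := by exact_mod_cast hn2
      have hnp : (0 : ℝ) < n := by linarith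
      obtain ⟨h1, h2, h3⟩ := hn0 n (by omega)
      have h4 : msd d n ≤ R ^ 2 / 4 := by
        refine h2.trans ?_
        have e1 : R ^ 2 / 4 = (2 * N : ℝ) ^ (2 * ν + ε) := by
          rw [hR, mul_pow, ← Real.rpow_natCast ((2 * N : ℝ) ^ (ν + ε / 2)),
            ← Real.rpow_mul (by linarith)]
          have e2 : (ν + ε / 2) * ((2 : ℕ) : ℝ) = 2 * ν + ε := by push_cast; ring
          rw [e2]
          ring
        rw [e1]
        exact Real.rpow_le_rpow hnp.le hnr2 (by linarith)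
      have h5 := half hd n E Z R (by linarith) h4 h3 (fun z hz hzR => by
        rw [hZ]
        exact Finset.mem_filter.2 ⟨mem_Box hzR, hz, hzR⟩)
      rw [← Finset.sum_div, le_div_iff₀ (pow_pos hmu n)]
      have h6 : (N : ℝ) ^ (γ - 1) * (2 * N : ℝ) ^ (-ε) ≤ (C d n : ℝ) / mu d ^ n := by
        refine le_trans ?_ h1
        have e1 : (n : ℝ) ^ (γ - 1 - ε) = (n : ℝ) ^ (γ - 1) * (n : ℝ) ^ (-ε) := by
          rw [← Real.rpow_add hnp]
          congr 1
        rw [e1]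
        exact mul_le_mul (Real.rpow_le_rpow (by linarith) hnr (by linarith))
          (Real.rpow_le_rpow_of_nonpos hnp hnr2 (by linarith)) (by positivity) (by positivity)
      rw [le_div_iff₀ (pow_pos hmu n)] at h6
      calc (N : ℝ) ^ (γ - 1) * (2 * N : ℝ) ^ (-ε) / 2 * mu d ^ n
          = ((N : ℝ) ^ (γ - 1) * (2 * N : ℝ) ^ (-ε) * mu d ^ n) / 2 := by ring
        _ ≤ (C d n : ℝ) / 2 := by linarith
        _ ≤ _ := h5
    calc (N : ℝ) * ((N : ℝ) ^ (γ - 1) * (2 * N : ℝ) ^ (-ε) / 2)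
        = ∑ n ∈ Finset.Ioc N (2 * N), (N : ℝ) ^ (γ - 1) * (2 * N : ℝ) ^ (-ε) / 2 := by
          rw [Finset.sum_const, nsmul_eq_mul, Nat.card_Ioc]
          congr 2
          omega
      _ ≤ ∑ n ∈ Finset.Ioc N (2 * N), ∑ z ∈ Z, (Cz d n z : ℝ) / mu d ^ n :=
          Finset.sum_le_sum hterm
      _ = ∑ z ∈ Z, ∑ n ∈ Finset.Ioc N (2 * N), (Cz d n z : ℝ) / mu d ^ n := Finset.sum_comm
      _ ≤ ∑ z ∈ Z, G d z := by
          refine Finset.sum_le_sum fun z _ => ?_
          exact (hη.1 z).sum_le_tsum _ (fun n _ => by positivity)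
      _ ≤ ∑ z ∈ Z, nrm z ^ s := by
          refine Finset.sum_le_sum fun z hz => ?_
          exact (hEout z (Finset.mem_filter.1 hz).2.1).2
      _ ≤ K * R ^ (max (s + d + ε) 0) := hsum s R Z hR1 fun z hz => by
          obtain ⟨h1, h2⟩ := (Finset.mem_filter.1 hz).2
          exact ⟨by linarith [(hEout z h1).1], h2⟩
      _ = K * R ^ t := by rw [ht']
  refine exp_le (c := (2 : ℝ) ^ (-ε) / 2) (K := K * ((2 : ℝ) ^ t * (2 : ℝ) ^ ((ν + ε / 2) * t)))
    (by positivity) ?_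
  filter_upwards [eventually_ge_atTop n0, eventually_ge_atTop 1] with N h1 h2
  have h3 := hmain N h1 h2
  have hNp : (0 : ℝ) < N := by exact_mod_cast h2
  have e1 : (N : ℝ) * ((N : ℝ) ^ (γ - 1) * (2 * N : ℝ) ^ (-ε) / 2) =
      (2 : ℝ) ^ (-ε) / 2 * (N : ℝ) ^ (γ - ε) := by
    rw [Real.mul_rpow (by norm_num) hNp.le]
    have e2 : (N : ℝ) ^ (γ - ε) = (N : ℝ) * (N : ℝ) ^ (γ - 1) * (N : ℝ) ^ (-ε) := by
      nth_rewrite 2 [← Real.rpow_one (N : ℝ)]
      rw [← Real.rpow_add hNp, ← Real.rpow_add hNp]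
      congr 1
      ring
    rw [e2]
    ring
  have e3 : K * (2 * (2 * N : ℝ) ^ (ν + ε / 2)) ^ t =
      K * ((2 : ℝ) ^ t * (2 : ℝ) ^ ((ν + ε / 2) * t)) * (N : ℝ) ^ ((ν + ε / 2) * t) := by
    rw [Real.mul_rpow (by norm_num) (by positivity), ← Real.rpow_mul (by positivity),
      Real.mul_rpow (by norm_num) hNp.le]
    ring
  rw [e1, e3] at h3
  exact h3

theorem fisher {d : ℕ} (hd : 1 ≤ d) {γ ν η : ℝ} (hγ : HasGamma d γ) (hν : HasNu d ν)
    (hη : HasEta d η) : γ ≤ ν * (2 - η) := by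
  have hk := key hd hγ hν hη
  have h1 : Tendsto (fun ε : ℝ => γ - ε) (𝓝[>] 0) (𝓝 γ) := by
    have h2 : Tendsto (fun ε : ℝ => γ - ε) (𝓝 0) (𝓝 (γ - 0)) :=
      (continuous_const.sub continuous_id).tendsto 0
    rw [sub_zero] at h2
    exact h2.mono_left nhdsWithin_le_nhds
  have h3 : Tendsto (fun ε : ℝ => (ν + ε / 2) * max (2 - η + 2 * ε) 0) (𝓝[>] 0)
      (𝓝 (ν * max (2 - η) 0)) := by
    have h4 : Continuous fun ε : ℝ => (ν + ε / 2) * max (2 - η + 2 * ε) 0 := by fun_prop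
    have h5 := h4.tendsto 0
    simp only [zero_div, add_zero, mul_zero] at h5
    exact h5.mono_left nhdsWithin_le_nhds
  have h6 : γ ≤ ν * max (2 - η) 0 := le_of_tendsto_of_tendsto h1 h3
    (eventually_nhdsWithin_of_forall fun ε hε => hk ε hε)
  have h7 := gamma_ge hd hγ
  rcases le_or_gt (2 - η) 0 with h8 | h8
  · rw [max_eq_right h8, mul_zero] at h6
    linarith
  · rwa [max_eq_left h8.le] at h6

end Pool.Agent.K1H72.Fi
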