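import Pool.Agent.K1H72.Fi.Gen

set_option autoImplicit false

/-!
# Fisher's scaling relation: the inequality from upper bounds
-/

namespace Pool.Agent.K1H72.Fi

open Filter Topology

theorem gamma_le {d : ℕ} (hd : 1 ≤ d) {γ ν η : ℝ} (hν : UpperNu d ν) (hη : UpperEta d η)
    (hγ : HasGamma d γ) : γ ≤ ν * (2 - η) := by
  have hγ1 := gamma_ge hd hγ
  have hγ' : Tendsto (fun n : ℕ => Real.log (C d n / mu d ^ n) / Real.log n) atTop
    (𝓝 (γ - 1)) := hγ
  have h0 : ∀ ε : ℝ, 0 < ε → γ - ε ≤ ν * (2 - η) + ε := by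
    intro ε hε
    have hA : ∀ᶠ n : ℕ in atTop, (n : ℝ) ^ (γ - 1 - ε) ≤ (C d n : ℝ) / mu d ^ n := by
      filter_upwards [hγ'.eventually_const_le (show γ - 1 - ε < γ - 1 by linarith),
        eventually_ge_atTop 2] with n h1 h2
      have hn : (1 : ℝ) < n := by exact_mod_cast h2
      have hl := Real.log_pos hn
      rw [le_div_iff₀ hl] at h1
      rw [← Real.log_le_log_iff (by positivity) (by linarith [A_ge hd n]),
        Real.log_rpow (by linarith)]
      exact h1
    obtain ⟨n0, hn0⟩ := eventually_atTop.1 (hA.and (SS_le hd hν hη ε hε))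
    refine exp_le (c := (2 : ℝ) ^ (-ε)) (K := (2 : ℝ) ^ (ν * (2 - η) + ε)) (by positivity) ?_
    filter_upwards [eventually_ge_atTop n0, eventually_ge_atTop 1] with N h1 h2
    have hNp : (0 : ℝ) < N := by exact_mod_cast h2
    have h3 : SS d (2 * N) ≤ ((2 * N : ℕ) : ℝ) ^ (ν * (2 - η) + ε) := (hn0 (2 * N) (by omega)).2
    have h4 : (N : ℝ) * ((N : ℝ) ^ (γ - 1) * (2 * N : ℝ) ^ (-ε)) ≤ SS d (2 * N) := by
      calc (N : ℝ) * ((N : ℝ) ^ (γ - 1) * (2 * N : ℝ) ^ (-ε))
          = ∑ n ∈ Finset.Ioc N (2 * N), (N : ℝ) ^ (γ - 1) * (2 * N : ℝ) ^ (-ε) := by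
            rw [Finset.sum_const, nsmul_eq_mul, Nat.card_Ioc]
            congr 2
            omega
        _ ≤ ∑ n ∈ Finset.Ioc N (2 * N), (C d n : ℝ) / mu d ^ n := by
            refine Finset.sum_le_sum fun n hn => ?_
            obtain ⟨hn1, hn2⟩ := Finset.mem_Ioc.1 hn
            have hnr : (N : ℝ) ≤ n := by exact_mod_cast hn1.le
            have hnr2 : (n : ℝ) ≤ 2 * N := by exact_mod_cast hn2
            have hnp : (0 : ℝ) < n := by linarith
            refine le_trans ?_ (hn0 n (by omega)).1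
            have e1 : (n : ℝ) ^ (γ - 1 - ε) = (n : ℝ) ^ (γ - 1) * (n : ℝ) ^ (-ε) := by
              rw [← Real.rpow_add hnp]
              congr 1
            rw [e1]
            exact mul_le_mul (Real.rpow_le_rpow (by linarith) hnr (by linarith))
              (Real.rpow_le_rpow_of_nonpos hnp hnr2 (by linarith)) (by positivity) (by positivity)
        _ ≤ SS d (2 * N) := by
            unfold SS
            refine Finset.sum_le_sum_of_subset_of_nonneg ?_ fun n _ _ => ?_
            · intro n hn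
              obtain ⟨hn1, hn2⟩ := Finset.mem_Ioc.1 hn
              exact Finset.mem_range.2 (by omega)
            · linarith [A_ge hd n]
    have h5 := h4.trans h3
    push_cast at h5
    rw [Real.mul_rpow (by norm_num) hNp.le, Real.mul_rpow (by norm_num) hNp.le] at h5
    have e2 : (N : ℝ) ^ (γ - ε) = (N : ℝ) * (N : ℝ) ^ (γ - 1) * (N : ℝ) ^ (-ε) := by
      nth_rewrite 2 [← Real.rpow_one (N : ℝ)]
      rw [← Real.rpow_add hNp, ← Real.rpow_add hNp]
      congr 1
      ring
    rw [e2]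
    calc (2 : ℝ) ^ (-ε) * ((N : ℝ) * (N : ℝ) ^ (γ - 1) * (N : ℝ) ^ (-ε))
        = (N : ℝ) * ((N : ℝ) ^ (γ - 1) * ((2 : ℝ) ^ (-ε) * (N : ℝ) ^ (-ε))) := by ring
      _ ≤ _ := h5
  by_contra hcon
  push Not at hcon
  have := h0 ((γ - ν * (2 - η)) / 4) (by linarith)
  linarith

theorem upperNu_of {d : ℕ} (hd : 1 ≤ d) {ν : ℝ} (hν : HasNu d ν) : UpperNu d ν := by
  intro ε hε
  have hν' : Tendsto (fun n : ℕ => Real.log (msd d n) / Real.log n) atTop (𝓝 (2 * ν)) := hν
  filter_upwards [hν'.eventually_le_const (show 2 * ν < 2 * ν + ε by linarith),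
    eventually_ge_atTop 2] with n h1 h2
  have hn : (1 : ℝ) < n := by exact_mod_cast h2
  have hl := Real.log_pos hn
  rw [div_le_iff₀ hl] at h1
  rw [← Real.log_le_log_iff (by linarith [msd_ge hd (show 1 ≤ n by omega)]) (by positivity),
    Real.log_rpow (by linarith)]
  exact h1

theorem upperEta_of {d : ℕ} {η : ℝ} (hη : HasEta d η) : UpperEta d η := by
  refine ⟨hη.1, fun ε hε => ?_⟩
  have h1 : ∀ᶠ z : Fin d → ℤ in cofinite, 2 ≤ nrm z := by
    rw [Filter.eventually_cofinite]
    refine (Box d 2).finite_toSet.subset fun z hz => ?_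
    exact Finset.mem_coe.2 (mem_Box (not_le.1 hz).le)
  filter_upwards [h1, hη.2.eventually_le_const
    (show -((d : ℝ) - 2 + η) < -((d : ℝ) - 2 + η) + ε by linarith)] with z h3 h4
  have hl : 0 < Real.log (nrm z) := Real.log_pos (by linarith)
  rw [div_le_iff₀ hl] at h4
  have hp : 0 < nrm z ^ (-((d : ℝ) - 2 + η) + ε) := Real.rpow_pos_of_pos (by linarith) _
  rcases le_or_gt (G d z) 0 with h5 | h5
  · linarith
  · rw [← Real.log_le_log_iff h5 hp, Real.log_rpow (by linarith)]
    exact h4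

end Pool.Agent.K1H72.Fi
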