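import Pool.Agent.K1H72.Fi.Main

set_option autoImplicit false

/-!
# Fisher's scaling relation: submultiplicativity
-/

namespace Pool.Agent.K1H72.Fi

open Filter Topology

theorem mem_W {d n : ℕ} {w : Fin (n + 1) → Fin d → ℤ} : w ∈ W d n ↔ w ∈ Gam d n := by
  unfold W
  exact Set.Finite.mem_toFinset _

theorem submul (d n m : ℕ) : C d (n + m) ≤ C d n * C d m := by
  rw [C_eq, C_eq, C_eq, ← Finset.card_product]
  refine Finset.card_le_card_of_injOn (fun w => (fun i : Fin (n + 1) => w ⟨i.1, by omega⟩,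
    fun j : Fin (m + 1) => w ⟨n + j.1, by omega⟩ - w ⟨n, by omega⟩)) ?_ ?_
  · intro w hw
    have hw' : w ∈ Gam d (n + m) := mem_W.1 hw
    rw [Finset.mem_coe, Finset.mem_product]
    refine ⟨mem_W.2 ⟨hw'.1, ?_, ?_⟩, mem_W.2 ⟨?_, ?_, ?_⟩⟩
    · intro a b hab
      have h1 := hw'.2.1 hab
      exact Fin.ext (by simpa using congrArg Fin.val h1)
    · intro i
      exact hw'.2.2 ⟨i.1, by omega⟩
    · show w ⟨n + 0, _⟩ - w ⟨n, _⟩ = 0
      exact sub_self _
    · intro a b hab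
      have h0 : w ⟨n + a.1, by omega⟩ - w ⟨n, by omega⟩ = w ⟨n + b.1, by omega⟩ - w ⟨n, by omega⟩ :=
        hab
      have h1 := hw'.2.1 (sub_left_inj.1 h0)
      exact Fin.ext (by simpa using congrArg Fin.val h1)
    · intro i
      have h1 := hw'.2.2 ⟨n + i.1, by omega⟩
      rw [← h1]
      refine Finset.sum_congr rfl fun j _ => ?_
      show |(w ⟨n + (i.1 + 1), _⟩ - w ⟨n, _⟩) j - (w ⟨n + i.1, _⟩ - w ⟨n, _⟩) j| =
        |w ⟨n + i.1 + 1, _⟩ j - w ⟨n + i.1, _⟩ j|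
      congr 1
      simp only [Pi.sub_apply]
      have h2 : w ⟨n + (i.1 + 1), by omega⟩ = w ⟨n + i.1 + 1, by omega⟩ := rfl
      rw [h2]
      ring
  · intro w _ w' _ h
    have h1 := (Prod.mk.inj h).1
    have h2 := (Prod.mk.inj h).2
    have h3 : ∀ (k : ℕ) (hk : k ≤ n), w ⟨k, by omega⟩ = w' ⟨k, by omega⟩ := by
      intro k hk
      exact congrFun h1 ⟨k, by omega⟩
    funext k
    rcases le_or_gt k.1 n with hk | hk
    · exact h3 k.1 hk
    · have h4 : w ⟨n + (k.1 - n), by omega⟩ - w ⟨n, by omega⟩ =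
          w' ⟨n + (k.1 - n), by omega⟩ - w' ⟨n, by omega⟩ :=
        congrFun h2 ⟨k.1 - n, by omega⟩
      rw [h3 n le_rfl, sub_left_inj] at h4
      have h5 : k = ⟨n + (k.1 - n), by omega⟩ := Fin.ext (by simp; omega)
      rw [h5]
      exact h4

end Pool.Agent.K1H72.Fi
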