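import Pool.Agent.K1H72.Fi.Fin
import Pool.Agent.K1H72.Fi.Sub

set_option autoImplicit false

/-!
# Fisher's scaling relation: upper bounds are enough
-/

namespace Pool.Agent.K1H72.Fi

open Filter Topology

def UpperNu (d : ℕ) (ν : ℝ) : Prop :=
  ∀ ε : ℝ, 0 < ε → ∀ᶠ n : ℕ in atTop, msd d n ≤ (n : ℝ) ^ (2 * ν + ε)

def UpperEta (d : ℕ) (η : ℝ) : Prop :=
  (∀ z, Summable fun n : ℕ => (Cz d n z : ℝ) / mu d ^ n) ∧
    ∀ ε : ℝ, 0 < ε → ∀ᶠ z : Fin d → ℤ in cofinite, G d z ≤ nrm z ^ (-((d : ℝ) - 2 + η) + ε)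

/-- the sum of the `C_n / μ ^ n` -/
noncomputable def SS (d N : ℕ) : ℝ := ∑ n ∈ Finset.range (N + 1), (C d n : ℝ) / mu d ^ n

theorem upperNu_nonneg {d : ℕ} (hd : 1 ≤ d) {ν : ℝ} (h : UpperNu d ν) : 0 ≤ ν := by
  have h1 : ∀ ε : ℝ, 0 < ε → 0 ≤ 2 * ν + ε := by
    intro ε hε
    refine exp_le (c := 1) (K := 1) one_pos ?_
    filter_upwards [h ε hε, eventually_ge_atTop 1] with n h2 h3
    rw [Real.rpow_zero, one_mul, one_mul]
    exact (msd_ge hd h3).trans h2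
  by_contra hcon
  push Not at hcon
  have := h1 (-ν) (by linarith)
  linarith

theorem keyU {d : ℕ} (hd : 1 ≤ d) {ν η : ℝ} (hν : UpperNu d ν) (hη : UpperEta d η) (ε : ℝ)
    (hε : 0 < ε) : ∃ K : ℝ, 0 < K ∧ ∀ᶠ N : ℕ in atTop,
      SS d N ≤ K * (N : ℝ) ^ ((ν + ε / 2) * max (2 - η + 2 * ε) 0) := by
  have hν0 := upperNu_nonneg hd hν
  have hmu : 0 < mu d := by linarith [mu_one_le hd]
  have hM := hν ε hε
  set s : ℝ := -((d : ℝ) - 2 + η) + ε with hs
  have hfin : {z : Fin d → ℤ | ¬ (2 ≤ nrm z ∧ G d z ≤ nrm z ^ s)}.Finite := by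
    have h1 : ∀ᶠ z : Fin d → ℤ in cofinite, 2 ≤ nrm z := by
      rw [Filter.eventually_cofinite]
      refine (Box d 2).finite_toSet.subset fun z hz => ?_
      exact Finset.mem_coe.2 (mem_Box (not_le.1 hz).le)
    exact Filter.eventually_cofinite.1 (h1.and (hη.2 ε hε))
  set E : Finset (Fin d → ℤ) := hfin.toFinset with hE
  have hEout : ∀ z, z ∉ E → 2 ≤ nrm z ∧ G d z ≤ nrm z ^ s := by
    intro z hz
    by_contra hcon
    exact hz (hE ▸ (Set.Finite.mem_toFinset hfin).2 hcon)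
  have hsmall : ∀ᶠ n : ℕ in atTop, ∑ z ∈ E, (Cz d n z : ℝ) ≤ C d n / 4 := by
    have h1 : Tendsto (fun n : ℕ => ∑ z ∈ E, (Cz d n z : ℝ) / mu d ^ n) atTop (𝓝 0) := by
      have h2 := tendsto_finsetSum E (fun z _ => (hη.1 z).tendsto_atTop_zero)
      simpa using h2
    filter_upwards [h1.eventually_le_const (show (0 : ℝ) < 1 / 4 by norm_num)] with n h2
    rw [← Finset.sum_div, div_le_iff₀ (pow_pos hmu n)] at h2
    have h3 := mu_pow_le hd n
    linarith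
  obtain ⟨n0, hn0⟩ := eventually_atTop.1 ((hM.and hsmall).and (eventually_ge_atTop 1))
  obtain ⟨K, hK, hsum⟩ := sum_pow d ε hε
  set t : ℝ := max (2 - η + 2 * ε) 0 with ht
  have ht0 : 0 ≤ t := le_max_right _ _
  have ht' : max (s + d + ε) 0 = t := by
    rw [ht, hs]
    congr 1
    ring
  have hνε : 0 ≤ ν + ε / 2 := by linarith
  have hA0 : ∀ n, 0 ≤ (C d n : ℝ) / mu d ^ n := fun n => by positivity
  refine ⟨(∑ n ∈ Finset.range n0, (C d n : ℝ) / mu d ^ n) + 2 * K * (2 : ℝ) ^ t, ?_, ?_⟩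
  · have := Finset.sum_nonneg fun n (_ : n ∈ Finset.range n0) => hA0 n
    positivity
  filter_upwards [eventually_ge_atTop n0, eventually_ge_atTop 1] with N hN hN1
  have hNr : (1 : ℝ) ≤ N := by exact_mod_cast hN1
  set R : ℝ := 2 * (N : ℝ) ^ (ν + ε / 2) with hR
  have hpw : 1 ≤ (N : ℝ) ^ (ν + ε / 2) := Real.one_le_rpow hNr hνε
  have hR1 : 1 ≤ R := by rw [hR]; linarith
  classical
  set Z := (Box d R).filter fun z => z ∉ E ∧ nrm z ≤ R with hZ
  have hterm : ∀ n ∈ Finset.Ico n0 (N + 1),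
      (C d n : ℝ) / mu d ^ n ≤ 2 * ∑ z ∈ Z, (Cz d n z : ℝ) / mu d ^ n := by
    intro n hn
    obtain ⟨hn1, hn2⟩ := Finset.mem_Ico.1 hn
    obtain ⟨⟨h2, h3⟩, h1⟩ := hn0 n hn1
    have hnr2 : (n : ℝ) ≤ N := by exact_mod_cast (by omega : n ≤ N)
    have hnp : (0 : ℝ) < n := by exact_mod_cast h1
    have h4 : msd d n ≤ R ^ 2 / 4 := by
      refine h2.trans ?_
      have e1 : R ^ 2 / 4 = (N : ℝ) ^ (2 * ν + ε) := by
        rw [hR, mul_pow, ← Real.rpow_natCast ((N : ℝ) ^ (ν + ε / 2)),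
          ← Real.rpow_mul (by linarith)]
        have e2 : (ν + ε / 2) * ((2 : ℕ) : ℝ) = 2 * ν + ε := by push_cast; ring
        rw [e2]
        ring
      rw [e1]
      exact Real.rpow_le_rpow hnp.le hnr2 (by linarith)
    have h5 := half hd n E Z R (by linarith) h4 h3 (fun z hz hzR => by
      rw [hZ]
      exact Finset.mem_filter.2 ⟨mem_Box hzR, hz, hzR⟩)
    rw [← Finset.sum_div, ← mul_div_assoc]
    exact div_le_div_of_nonneg_right (by linarith) (pow_pos hmu n).le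
  have h6 : ∑ n ∈ Finset.Ico n0 (N + 1), (C d n : ℝ) / mu d ^ n ≤ 2 * (K * R ^ t) := by
    calc ∑ n ∈ Finset.Ico n0 (N + 1), (C d n : ℝ) / mu d ^ n
        ≤ ∑ n ∈ Finset.Ico n0 (N + 1), 2 * ∑ z ∈ Z, (Cz d n z : ℝ) / mu d ^ n :=
          Finset.sum_le_sum hterm
      _ = 2 * ∑ z ∈ Z, ∑ n ∈ Finset.Ico n0 (N + 1), (Cz d n z : ℝ) / mu d ^ n := by
          rw [← Finset.mul_sum, Finset.sum_comm]
      _ ≤ 2 * ∑ z ∈ Z, G d z := by
          refine mul_le_mul_of_nonneg_left (Finset.sum_le_sum fun z _ => ?_) (by norm_num)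
          exact (hη.1 z).sum_le_tsum _ (fun n _ => by positivity)
      _ ≤ 2 * ∑ z ∈ Z, nrm z ^ s := by
          refine mul_le_mul_of_nonneg_left (Finset.sum_le_sum fun z hz => ?_) (by norm_num)
          exact (hEout z (Finset.mem_filter.1 hz).2.1).2
      _ ≤ 2 * (K * R ^ (max (s + d + ε) 0)) :=
          mul_le_mul_of_nonneg_left (hsum s R Z hR1 fun z hz => by
            obtain ⟨h1, h2⟩ := (Finset.mem_filter.1 hz).2
            exact ⟨by linarith [(hEout z h1).1], h2⟩) (by norm_num)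
      _ = 2 * (K * R ^ t) := by rw [ht']
  have h7 : SS d N = (∑ n ∈ Finset.range n0, (C d n : ℝ) / mu d ^ n) +
      ∑ n ∈ Finset.Ico n0 (N + 1), (C d n : ℝ) / mu d ^ n := by
    unfold SS
    rw [Finset.sum_range_add_sum_Ico _ (by omega : n0 ≤ N + 1)]
  have e3 : R ^ t = (2 : ℝ) ^ t * (N : ℝ) ^ ((ν + ε / 2) * t) := by
    rw [hR, Real.mul_rpow (by norm_num) (by positivity), ← Real.rpow_mul (by positivity)]
  have h8 : 1 ≤ (N : ℝ) ^ ((ν + ε / 2) * t) := Real.one_le_rpow hNr (mul_nonneg hνε ht0)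
  have h9 : (∑ n ∈ Finset.range n0, (C d n : ℝ) / mu d ^ n) ≤
      (∑ n ∈ Finset.range n0, (C d n : ℝ) / mu d ^ n) * (N : ℝ) ^ ((ν + ε / 2) * t) :=
    le_mul_of_one_le_right (Finset.sum_nonneg fun n _ => hA0 n) h8
  rw [h7, add_mul]
  rw [e3] at h6
  linarith

theorem SS_ge {d : ℕ} (hd : 1 ≤ d) (N : ℕ) : (N : ℝ) ≤ SS d N := by
  unfold SS
  calc (N : ℝ) ≤ ∑ n ∈ Finset.range (N + 1), (1 : ℝ) := by simp
    _ ≤ _ := Finset.sum_le_sum fun n _ => A_ge hd n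

theorem one_le_prod {d : ℕ} (hd : 1 ≤ d) {ν η : ℝ} (hν : UpperNu d ν) (hη : UpperEta d η) :
    1 ≤ ν * (2 - η) := by
  have hk : ∀ ε : ℝ, 0 < ε → 1 ≤ (ν + ε / 2) * max (2 - η + 2 * ε) 0 := by
    intro ε hε
    obtain ⟨K, hK, h⟩ := keyU hd hν hη ε hε
    refine exp_le (c := 1) (K := K) one_pos ?_
    filter_upwards [h] with N h1
    rw [one_mul, Real.rpow_one]
    exact (SS_ge hd N).trans h1
  have h4 : Continuous fun ε : ℝ => (ν + ε / 2) * max (2 - η + 2 * ε) 0 := by fun_prop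
  have h5 := h4.tendsto 0
  simp only [zero_div, add_zero, mul_zero] at h5
  have h6 : 1 ≤ ν * max (2 - η) 0 := ge_of_tendsto (h5.mono_left nhdsWithin_le_nhds)
    (eventually_nhdsWithin_of_forall (s := Set.Ioi 0) fun ε hε => hk ε hε)
  rcases le_or_gt (2 - η) 0 with h8 | h8
  · rw [max_eq_right h8, mul_zero] at h6
    linarith
  · rwa [max_eq_left h8.le] at h6

theorem SS_le {d : ℕ} (hd : 1 ≤ d) {ν η : ℝ} (hν : UpperNu d ν) (hη : UpperEta d η) (ε' : ℝ)
    (hε' : 0 < ε') : ∀ᶠ N : ℕ in atTop, SS d N ≤ (N : ℝ) ^ (ν * (2 - η) + ε') := by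
  have h1 := one_le_prod hd hν hη
  have hν0 := upperNu_nonneg hd hν
  have h2 : 0 < 2 - η := by
    by_contra hcon
    push Not at hcon
    nlinarith
  have h4 : Continuous fun ε : ℝ => (ν + ε / 2) * max (2 - η + 2 * ε) 0 := by fun_prop
  have h5 := h4.tendsto 0
  simp only [zero_div, add_zero, mul_zero] at h5
  rw [max_eq_left h2.le] at h5
  have h6 := (h5.mono_left (nhdsWithin_le_nhds (s := Set.Ioi 0))).eventually_lt_const
    (show ν * (2 - η) < ν * (2 - η) + ε' by linarith)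
  obtain ⟨ε, h7, hε⟩ := (h6.and self_mem_nhdsWithin).exists
  obtain ⟨K, hK, h8⟩ := keyU hd hν hη ε hε
  set b := (ν + ε / 2) * max (2 - η + 2 * ε) 0 with hb
  have h9 : Tendsto (fun N : ℕ => (N : ℝ) ^ (ν * (2 - η) + ε' - b)) atTop atTop :=
    (tendsto_rpow_atTop (by linarith)).comp tendsto_natCast_atTop_atTop
  filter_upwards [h8, h9.eventually_ge_atTop K, eventually_gt_atTop 0] with N h10 h11 h12
  have hN : (0 : ℝ) < N := by exact_mod_cast h12
  refine h10.trans ?_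
  calc K * (N : ℝ) ^ b ≤ (N : ℝ) ^ (ν * (2 - η) + ε' - b) * (N : ℝ) ^ b :=
        mul_le_mul_of_nonneg_right h11 (by positivity)
    _ = (N : ℝ) ^ (ν * (2 - η) + ε') := by
        rw [← Real.rpow_add hN]
        congr 1
        ring

theorem A_le {d : ℕ} (hd : 1 ≤ d) (N : ℕ) :
    (N : ℝ) * ((C d N : ℝ) / mu d ^ N) ≤ SS d N ^ 2 := by
  have hmu : 0 < mu d := by linarith [mu_one_le hd]
  have hA0 : ∀ n, 0 ≤ (C d n : ℝ) / mu d ^ n := fun n => by positivity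
  have h1 : ∀ n ∈ Finset.range (N + 1), (C d N : ℝ) / mu d ^ N ≤
      (C d n : ℝ) / mu d ^ n * SS d N := by
    intro n hn
    have hn' : n ≤ N := by simpa [Nat.lt_succ_iff] using hn
    have h2 : (C d (N - n) : ℝ) / mu d ^ (N - n) ≤ SS d N :=
      Finset.single_le_sum (f := fun n => (C d n : ℝ) / mu d ^ n) (fun n _ => hA0 n)
        (Finset.mem_range.2 (by omega))
    refine le_trans ?_ (mul_le_mul_of_nonneg_left h2 (hA0 n))
    rw [div_mul_div_comm, ← pow_add, show n + (N - n) = N by omega]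
    refine div_le_div_of_nonneg_right ?_ (pow_pos hmu N).le
    have h3 := submul d n (N - n)
    rw [show n + (N - n) = N by omega] at h3
    exact_mod_cast h3
  have h2 : ∑ n ∈ Finset.range (N + 1), (C d N : ℝ) / mu d ^ N ≤ SS d N * SS d N := by
    refine (Finset.sum_le_sum h1).trans ?_
    rw [← Finset.sum_mul]
    exact le_refl _
  rw [Finset.sum_const, Finset.card_range, nsmul_eq_mul] at h2
  push_cast at h2
  nlinarith [hA0 N]

theorem C_le {d : ℕ} (hd : 1 ≤ d) {ν η : ℝ} (hν : UpperNu d ν) (hη : UpperEta d η) (ε : ℝ)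
    (hε : 0 < ε) : ∀ᶠ N : ℕ in atTop,
      (C d N : ℝ) ≤ mu d ^ N * (N : ℝ) ^ (2 * (ν * (2 - η)) - 1 + ε) := by
  have hmu : 0 < mu d := by linarith [mu_one_le hd]
  filter_upwards [SS_le hd hν hη (ε / 2) (by linarith), eventually_gt_atTop 0] with N h1 h2
  have hN : (0 : ℝ) < N := by exact_mod_cast h2
  have h3 := A_le hd N
  have h0 : 0 ≤ SS d N := (Nat.cast_nonneg N).trans (SS_ge hd N)
  have h4 : SS d N ^ 2 ≤ ((N : ℝ) ^ (ν * (2 - η) + ε / 2)) ^ 2 := pow_le_pow_left₀ h0 h1 2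
  have h5 : ((N : ℝ) ^ (ν * (2 - η) + ε / 2)) ^ 2 =
      (N : ℝ) * (N : ℝ) ^ (2 * (ν * (2 - η)) - 1 + ε) := by
    rw [← Real.rpow_natCast ((N : ℝ) ^ (ν * (2 - η) + ε / 2)), ← Real.rpow_mul hN.le]
    nth_rewrite 2 [← Real.rpow_one (N : ℝ)]
    rw [← Real.rpow_add hN]
    congr 1
    push_cast
    ring
  rw [h5] at h4
  have h6 := le_of_mul_le_mul_left (h3.trans h4) hN
  rw [div_le_iff₀ (pow_pos hmu N)] at h6
  linarith

/-- the trivial bound for the displacement -/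
theorem upperNu_one (d : ℕ) (hd : 1 ≤ d) : UpperNu d 1 := by
  intro ε hε
  have h9 : Tendsto (fun N : ℕ => (N : ℝ) ^ ε) atTop atTop :=
    (tendsto_rpow_atTop hε).comp tendsto_natCast_atTop_atTop
  filter_upwards [h9.eventually_ge_atTop (d : ℝ), eventually_gt_atTop 0] with n h1 h2
  have hn : (0 : ℝ) < n := by exact_mod_cast h2
  have hC : (0 : ℝ) < C d n := by exact_mod_cast C_pos hd n
  have h3 : msd d n ≤ d * (n : ℝ) ^ 2 := by
    rw [msd_eq, div_le_iff₀ hC, C_eq]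
    calc ∑ w ∈ W d n, nsq (w (Fin.last n)) ≤ ∑ w ∈ W d n, (d : ℝ) * (n : ℝ) ^ 2 := by
          refine Finset.sum_le_sum fun w hw => ?_
          unfold nsq
          calc ∑ i, ((w (Fin.last n) i : ℤ) : ℝ) ^ 2 ≤ ∑ _i : Fin d, (n : ℝ) ^ 2 := by
                refine Finset.sum_le_sum fun i _ => ?_
                have h4 := bound (mem_W.1 hw) n (by omega) i
                have h5 : w (Fin.last n) = w ⟨n, by omega⟩ := rfl
                rw [h5]
                refine sq_le_sq' ?_ ?_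
                · exact_mod_cast (abs_le.1 h4).1
                · exact_mod_cast (abs_le.1 h4).2
            _ = (d : ℝ) * (n : ℝ) ^ 2 := by simp
      _ = (d : ℝ) * (n : ℝ) ^ 2 * (W d n).card := by
          rw [Finset.sum_const, nsmul_eq_mul]
          ring
  refine h3.trans ?_
  rw [Real.rpow_add hn, mul_one, mul_comm]
  have e1 : (n : ℝ) ^ (2 : ℝ) = (n : ℝ) ^ 2 := by
    rw [← Real.rpow_natCast]
    norm_num
  rw [e1]
  exact mul_le_mul_of_nonneg_left h1 (by positivity)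

/-- the connective constant is the limit -/
theorem mu_eq {d : ℕ} (hd : 1 ≤ d) {μ : ℝ}
    (h : Tendsto (fun n : ℕ => (C d n : ℝ) ^ ((1 : ℝ) / (n : ℝ))) atTop (𝓝 μ)) : μ = mu d := by
  have hne : Nonempty {n : ℕ // 1 ≤ n} := ⟨⟨1, le_refl 1⟩⟩
  have hpow : ∀ n k : ℕ, (C d (n * (k + 1)) : ℝ) ≤ (C d n : ℝ) ^ (k + 1) := by
    intro n k
    induction k with
    | zero => simp
    | succ k ih =>
      have h1 : (C d (n * (k + 1) + n) : ℝ) ≤ C d (n * (k + 1)) * C d n := by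
        exact_mod_cast submul d (n * (k + 1)) n
      have e1 : n * (k + 1 + 1) = n * (k + 1) + n := by ring
      rw [e1, pow_succ (C d n : ℝ) (k + 1)]
      exact h1.trans (mul_le_mul_of_nonneg_right ih (Nat.cast_nonneg _))
  apply le_antisymm
  · refine le_ciInf fun n => ?_
    obtain ⟨n, hn⟩ := n
    have hn' : (0 : ℝ) < n := by exact_mod_cast hn
    have h2 : Tendsto (fun k : ℕ => n * (k + 1)) atTop atTop := by
      refine tendsto_atTop_mono (fun k => ?_) tendsto_id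
      show k ≤ n * (k + 1)
      nlinarith
    refine le_of_tendsto (h.comp h2) (Eventually.of_forall fun k => ?_)
    show (C d (n * (k + 1)) : ℝ) ^ ((1 : ℝ) / ((n * (k + 1) : ℕ) : ℝ)) ≤
      (C d n : ℝ) ^ ((1 : ℝ) / (n : ℝ))
    have h3 : (0 : ℝ) < (k : ℝ) + 1 := by positivity
    calc (C d (n * (k + 1)) : ℝ) ^ ((1 : ℝ) / ((n * (k + 1) : ℕ) : ℝ))
        ≤ ((C d n : ℝ) ^ (k + 1)) ^ ((1 : ℝ) / ((n * (k + 1) : ℕ) : ℝ)) :=
          Real.rpow_le_rpow (Nat.cast_nonneg _) (hpow n k) (by positivity)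
      _ = (C d n : ℝ) ^ ((1 : ℝ) / (n : ℝ)) := by
          rw [← Real.rpow_natCast, ← Real.rpow_mul (Nat.cast_nonneg _)]
          congr 1
          push_cast
          field_simp
  · refine ge_of_tendsto h (eventually_atTop.2 ⟨1, fun n hn => ?_⟩)
    exact ciInf_le ⟨0, by rintro _ ⟨m, rfl⟩; positivity⟩ (⟨n, hn⟩ : {n : ℕ // 1 ≤ n})

end Pool.Agent.K1H72.Fi
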