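import Pool.Agent.K1H72.Fi.Defs

set_option autoImplicit false

/-!
# Fisher's scaling relation: one half. The proof
-/

namespace Pool.Agent.K1H72.Fi

open Filter Topology

def HasGamma (d : ℕ) (γ : ℝ) : Prop :=
  Tendsto (fun n : ℕ => Real.log (C d n / mu d ^ n) / Real.log n) atTop (𝓝 (γ - 1))

def HasNu (d : ℕ) (ν : ℝ) : Prop :=
  Tendsto (fun n : ℕ => Real.log (msd d n) / Real.log n) atTop (𝓝 (2 * ν))

def HasEta (d : ℕ) (η : ℝ) : Prop :=
  (∀ z, Summable fun n : ℕ => (Cz d n z : ℝ) / mu d ^ n) ∧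
    Tendsto (fun z : Fin d → ℤ => Real.log (G d z) / Real.log (nrm z)) cofinite
      (𝓝 (-((d : ℝ) - 2 + η)))

theorem summ (d : ℕ) (r : ℝ) (hr : r < -(d : ℝ)) :
    Summable fun z : Fin d → ℤ => ‖(fun i => (z i : ℝ) : Fin d → ℝ)‖ ^ r := by
  set L := Submodule.span ℤ (Set.range (Pi.basisFun ℝ (Fin d))) with hL
  have hfin : (Module.finrank ℤ L : ℝ) = d := by
    have h := ZLattice.rank ℝ L
    rw [h, Module.finrank_fin_fun]
  have h1 := ZLattice.summable_norm_rpow (L := L) r (by rw [hfin]; exact hr)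
  have hmem : ∀ z : Fin d → ℤ, (fun i => (z i : ℝ) : Fin d → ℝ) ∈ L := by
    intro z
    rw [hL, (Pi.basisFun ℝ (Fin d)).mem_span_iff_repr_mem ℤ]
    intro i
    exact ⟨z i, by simp⟩
  have h2 := h1.comp_injective (i := fun z : Fin d → ℤ => (⟨_, hmem z⟩ : L)) (by
    intro a b hab
    have h3 := congrArg Subtype.val hab
    funext i
    have h4 := congrFun h3 i
    simpa using h4)
  exact h2

open Classical in
theorem card_mem (d n : ℕ) (S : Finset (Fin d → ℤ)) :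
    (((W d n).filter fun w => w (Fin.last n) ∈ S).card : ℝ) = ∑ z ∈ S, (Cz d n z : ℝ) := by
  have h := Finset.card_eq_sum_card_fiberwise
    (s := (W d n).filter fun w => w (Fin.last n) ∈ S) (f := fun w => w (Fin.last n)) (t := S)
    (fun w hw => (Finset.mem_filter.1 hw).2)
  rw [h]
  push_cast
  refine Finset.sum_congr rfl fun z hz => ?_
  rw [Cz_eq]
  congr 2
  ext w
  simp only [Finset.mem_filter]
  constructor
  · rintro ⟨⟨h1, -⟩, h2⟩
    exact ⟨h1, h2⟩
  · rintro ⟨h1, h2⟩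
    exact ⟨⟨h1, by rw [h2]; exact hz⟩, h2⟩

/-- most of the walks end in `Z` -/
theorem half {d : ℕ} (hd : 1 ≤ d) (n : ℕ) (E Z : Finset (Fin d → ℤ)) (R : ℝ) (hR : 0 < R)
    (hm : msd d n ≤ R ^ 2 / 4) (hE : ∑ z ∈ E, (Cz d n z : ℝ) ≤ C d n / 4)
    (hZ : ∀ z, z ∉ E → nrm z ≤ R → z ∈ Z) :
    (C d n : ℝ) / 2 ≤ ∑ z ∈ Z, (Cz d n z : ℝ) := by
  classical
  have hC : (0 : ℝ) < C d n := by exact_mod_cast C_pos hd n
  have h1 : ((W d n).card : ℝ) ≤ (((W d n).filter fun w => w (Fin.last n) ∈ E).card : ℝ) +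
      (((W d n).filter fun w => w (Fin.last n) ∈ Z).card : ℝ) +
      (((W d n).filter fun w => R < nrm (w (Fin.last n))).card : ℝ) := by
    have h2 : W d n ⊆ (((W d n).filter fun w => w (Fin.last n) ∈ E) ∪
      ((W d n).filter fun w => w (Fin.last n) ∈ Z)) ∪
      ((W d n).filter fun w => R < nrm (w (Fin.last n))) := by
      intro w hw
      simp only [Finset.mem_union, Finset.mem_filter]
      by_cases hE' : w (Fin.last n) ∈ E
      · exact Or.inl (Or.inl ⟨hw, hE'⟩)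
      · by_cases hR' : nrm (w (Fin.last n)) ≤ R
        · exact Or.inl (Or.inr ⟨hw, hZ _ hE' hR'⟩)
        · exact Or.inr ⟨hw, not_le.1 hR'⟩
    have h3 := (Finset.card_le_card h2).trans ((Finset.card_union_le _ _).trans
      (Nat.add_le_add_right (Finset.card_union_le _ _) _))
    exact_mod_cast h3
  have h4 : (((W d n).filter fun w => R < nrm (w (Fin.last n))).card : ℝ) * R ^ 2 ≤
      C d n * (R ^ 2 / 4) := by
    have h5 : (∑ w ∈ W d n, nsq (w (Fin.last n))) = C d n * msd d n := by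
      rw [msd_eq]
      field_simp
    calc (((W d n).filter fun w => R < nrm (w (Fin.last n))).card : ℝ) * R ^ 2
        = ∑ w ∈ (W d n).filter fun w => R < nrm (w (Fin.last n)), R ^ 2 := by
          rw [Finset.sum_const, nsmul_eq_mul]
      _ ≤ ∑ w ∈ (W d n).filter fun w => R < nrm (w (Fin.last n)), nsq (w (Fin.last n)) := by
          refine Finset.sum_le_sum fun w hw => ?_
          have h6 := (Finset.mem_filter.1 hw).2
          unfold nrm at h6
          exact ((Real.lt_sqrt hR.le).1 h6).le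
      _ ≤ ∑ w ∈ W d n, nsq (w (Fin.last n)) :=
          Finset.sum_le_sum_of_subset_of_nonneg (Finset.filter_subset _ _)
            fun _ _ _ => nsq_nonneg _
      _ = C d n * msd d n := h5
      _ ≤ C d n * (R ^ 2 / 4) := mul_le_mul_of_nonneg_left hm hC.le
  have h7 : (((W d n).filter fun w => R < nrm (w (Fin.last n))).card : ℝ) ≤ C d n / 4 := by
    have hR2 : 0 < R ^ 2 := by positivity
    by_contra hcon
    push Not at hcon
    nlinarith
  rw [card_mem, card_mem, ← C_eq] at h1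
  linarith

theorem norm_le_nrm {d : ℕ} (z : Fin d → ℤ) : ‖(fun i => (z i : ℝ) : Fin d → ℝ)‖ ≤ nrm z := by
  rw [pi_norm_le_iff_of_nonneg (show 0 ≤ nrm z from Real.sqrt_nonneg _)]
  intro i
  rw [Real.norm_eq_abs]
  refine Real.abs_le_sqrt ?_
  exact Finset.single_le_sum (f := fun i => (z i : ℝ) ^ 2) (fun _ _ => sq_nonneg _)
    (Finset.mem_univ i)

/-- the sites of norm at most `R` -/
noncomputable def Box (d : ℕ) (R : ℝ) : Finset (Fin d → ℤ) :=
  Fintype.piFinset fun _ : Fin d => Finset.Icc (-⌈R⌉) ⌈R⌉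

theorem mem_Box {d : ℕ} {R : ℝ} {z : Fin d → ℤ} (h : nrm z ≤ R) : z ∈ Box d R := by
  unfold Box
  rw [Fintype.mem_piFinset]
  intro i
  have h1 : |(z i : ℝ)| ≤ R := by
    have h2 := (norm_le_pi_norm (fun i => (z i : ℝ) : Fin d → ℝ) i).trans
      ((norm_le_nrm z).trans h)
    simpa using h2
  have h3 : ((|z i| : ℤ) : ℝ) ≤ (⌈R⌉ : ℝ) := by
    push_cast
    exact h1.trans (Int.le_ceil R)
  have h4 : |z i| ≤ ⌈R⌉ := by exact_mod_cast h3
  rw [Finset.mem_Icc]
  exact abs_le.1 h4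

/-- sums of powers of the norm -/
theorem sum_pow (d : ℕ) (ε : ℝ) (hε : 0 < ε) : ∃ K : ℝ, 0 < K ∧ ∀ (s R : ℝ)
    (Z : Finset (Fin d → ℤ)), 1 ≤ R → (∀ z ∈ Z, 1 ≤ nrm z ∧ nrm z ≤ R) →
      ∑ z ∈ Z, nrm z ^ s ≤ K * R ^ (max (s + d + ε) 0) := by
  have hs := summ d (-((d : ℝ) + ε)) (by linarith)
  have h0 : ∀ z : Fin d → ℤ, 0 ≤ ‖(fun i => (z i : ℝ) : Fin d → ℝ)‖ ^ (-((d : ℝ) + ε)) :=
    fun z => Real.rpow_nonneg (norm_nonneg _) _
  have h00 : 0 ≤ ∑' z : Fin d → ℤ, ‖(fun i => (z i : ℝ) : Fin d → ℝ)‖ ^ (-((d : ℝ) + ε)) :=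
    tsum_nonneg h0
  refine ⟨(∑' z : Fin d → ℤ, ‖(fun i => (z i : ℝ) : Fin d → ℝ)‖ ^ (-((d : ℝ) + ε))) + 1,
    by linarith, fun s R Z hR hZ => ?_⟩
  have h1 : ∀ z ∈ Z, nrm z ^ s ≤ ‖(fun i => (z i : ℝ) : Fin d → ℝ)‖ ^ (-((d : ℝ) + ε)) *
      R ^ (max (s + d + ε) 0) := by
    intro z hz
    obtain ⟨h2, h3⟩ := hZ z hz
    have hn : 0 < nrm z := by linarith
    have hne : 0 < ‖(fun i => (z i : ℝ) : Fin d → ℝ)‖ := by
      rw [norm_pos_iff]
      intro h4
      have h5 : nsq z = 0 := by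
        unfold nsq
        refine Finset.sum_eq_zero fun i _ => ?_
        have := congrFun h4 i
        simp only [Pi.zero_apply] at this
        rw [this]
        norm_num
      have h6 : nrm z = 0 := by
        unfold nrm
        rw [h5, Real.sqrt_zero]
      linarith
    have e1 : nrm z ^ s = nrm z ^ (-((d : ℝ) + ε)) * nrm z ^ (s + d + ε) := by
      rw [← Real.rpow_add hn]
      congr 1
      ring
    rw [e1]
    refine mul_le_mul ?_ ?_ (Real.rpow_nonneg hn.le _) (Real.rpow_nonneg (norm_nonneg _) _)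
    · exact Real.rpow_le_rpow_of_nonpos hne (norm_le_nrm z) (by
        have : (0 : ℝ) ≤ d := Nat.cast_nonneg d
        linarith)
    · exact (Real.rpow_le_rpow_of_exponent_le h2 (le_max_left _ _)).trans
        (Real.rpow_le_rpow hn.le h3 (le_max_right _ _))
  calc ∑ z ∈ Z, nrm z ^ s ≤ ∑ z ∈ Z, ‖(fun i => (z i : ℝ) : Fin d → ℝ)‖ ^ (-((d : ℝ) + ε)) *
        R ^ (max (s + d + ε) 0) := Finset.sum_le_sum h1
    _ = (∑ z ∈ Z, ‖(fun i => (z i : ℝ) : Fin d → ℝ)‖ ^ (-((d : ℝ) + ε))) *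
        R ^ (max (s + d + ε) 0) := by rw [Finset.sum_mul]
    _ ≤ _ := by
      refine mul_le_mul_of_nonneg_right ?_ (Real.rpow_nonneg (by linarith) _)
      have := hs.sum_le_tsum Z (fun z _ => h0 z)
      linarith

/-- comparison of exponents -/
theorem exp_le {a b c K : ℝ} (hc : 0 < c) (h : ∀ᶠ N : ℕ in atTop, c * (N : ℝ) ^ a ≤ K * (N : ℝ) ^ b) :
    a ≤ b := by
  by_contra hcon
  push Not at hcon
  have h1 : Tendsto (fun N : ℕ => (N : ℝ) ^ (a - b)) atTop atTop :=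
    (tendsto_rpow_atTop (by linarith)).comp tendsto_natCast_atTop_atTop
  obtain ⟨N, h2, h3, h4⟩ := (h.and ((h1.eventually_gt_atTop (K / c)).and
    (eventually_gt_atTop 0))).exists
  have hN : (0 : ℝ) < N := by exact_mod_cast h4
  rw [Real.rpow_sub hN, lt_div_iff₀ (Real.rpow_pos_of_pos hN _), div_mul_eq_mul_div,
    div_lt_iff₀ hc] at h3
  linarith

end Pool.Agent.K1H72.Fi
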